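import Pool.Agent.R431.SG.MainS

/-!
# The Selmer group conjecture for almost all curves `y ^ ℓ = δ (x - g 1(t)) ... (x - g N(t))`

The definitions of the Jacobian `J`, of its Galois cohomology over `K` and of the groups of locally
trivial classes are in `Pool.Agent.Y713.SE.Stm`.
-/

set_option autoImplicit false
set_option linter.all false

open Polynomial NumberField

namespace Pool.Agent.Results.MP_1bdb59_nt.AlmostAllMonic

/-- The polynomial `g i = c (i, 0) + c (i, 1) t + ... + c (i, n) t ^ n` over `k`. -/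
noncomputable def coeffPoly {k : Type} [Field k] {N n : ℕ} (c : Fin (N + 1) × Fin (n + 1) → 𝓞 k)
    (i : Fin (N + 1)) : k[X] :=
  ∑ j : Fin (n + 1), C (algebraMap (𝓞 k) k (c (i, j))) * X ^ (j : ℕ)

/-- The polynomial `δ (x - g 0 (t)) ... (x - g N (t))` in `x` over `k(t)`. -/
noncomputable def F {k : Type} [Field k] {N n : ℕ} (c : Fin (N + 1) × Fin (n + 1) → 𝓞 k)
    (δ : k) : (RatFunc k)[X] :=
  C (algebraMap k[X] (RatFunc k) (C δ)) *
    ∏ i : Fin (N + 1), (X - C (algebraMap k[X] (RatFunc k) (coeffPoly c i)))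

/-- Let `ℓ` be a prime number, let `k` be a number field containing the `ℓ`-th roots of unity, let
`N + 1 ≥ 3` be prime to `ℓ` and let `n ≥ 4`. For 100 percent of all tuples `(g 0, ..., g N)` of
polynomials in `t` of degree at most `n` with integral coefficients, ordered by the size of the
coordinates of the coefficients for a given integral basis `B` of `k`, the following holds for all
`δ ≠ 0` in `k` and the Jacobian `J` of the curve `y ^ ℓ = δ (x - g 0 (t)) ... (x - g N (t))` over
`k(t)`: every class of `ℓ`-power order in `H ^ 1 (k(t), J)` which is zero over the completions at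
all closed points of the affine line is zero, in particular the `ℓ`-adic Tate module of the
Tate-Shafarevich group of `J` is zero. -/
theorem result (k : Type) [Field k] [NumberField k] (I : Type) [Fintype I]
    (B : Module.Basis I ℤ (𝓞 k)) (ℓ : ℕ) (hℓ : ℓ.Prime) (ζ : k) (hζ : IsPrimitiveRoot ζ ℓ)
    (N : ℕ) (hN2 : 2 ≤ N) (hN : ¬ ℓ ∣ N + 1) (n : ℕ) (hn : 4 ≤ n) (η : ℝ) (hη : 0 < η) :
    ∃ H₀ : ℕ, ∀ H : ℕ, H₀ ≤ H →
      ({c : Fin (N + 1) × Fin (n + 1) → 𝓞 k | (∀ q j, |B.repr (c q) j| ≤ (H : ℤ)) ∧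
        ¬ ∀ δ : k, δ ≠ 0 → (Y713.Jac.ShaPrimaryTrivial ℓ (F c δ) k[X] ∧
          Y713.Jac.ShaTateTrivial ℓ (F c δ) k[X])}.ncard : ℝ) ≤
        η * ((2 * (H : ℝ) + 1) ^ ((N + 1) * (n + 1))) ^ Fintype.card I := by
  obtain ⟨H0, h0⟩ := R431.SG.star_main B hℓ hζ hN2 hN hn hη
  refine ⟨H0, fun H hH => ?_⟩
  rw [← pow_mul]
  refine le_trans (le_of_eq ?_) (h0 H hH)
  congr 2
  ext c
  simp only [Set.mem_setOf_eq]
  refine and_congr_right fun _ => not_congr (forall_congr' fun δ => forall_congr' fun _ => ?_)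
  exact ⟨fun h => h.1, fun h => ⟨h, Y713.Jac.ShaPrimaryTrivial.tate h⟩⟩

end Pool.Agent.Results.MP_1bdb59_nt.AlmostAllMonic
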