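import Pool.Agent.R431.SG.TwistL

/-!
# The Selmer group conjecture for almost all twists

The definitions of the Jacobian `J`, of its Galois cohomology over `K` and of the groups of locally
trivial classes are in `Pool.Agent.Y713.SE.Stm`.
-/

set_option autoImplicit false
set_option linter.all false

open Polynomial NumberField

namespace Pool.Agent.Results.MP_1bdb59_nt.AlmostAllTwists

/-- The polynomial `c 0 + c 1 t + ... + c n t ^ n` over `k`. -/
noncomputable def twistPoly {k : Type} [Field k] {n : ℕ} (c : Fin (n + 1) → 𝓞 k) : k[X] :=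
  ∑ i, C (algebraMap (𝓞 k) k (c i)) * X ^ (i : ℕ)

/-- Let `ℓ` be a prime, let `k` be a number field with a primitive `ℓ`-th root of unity (any number
field if `ℓ = 2`) and let `F` be a polynomial over `k(t)` of degree prime to `ℓ` without multiple
roots and with all roots in `k(t)`. Let `n ≥ 2`, and `n ≥ 3` if `ℓ = 2`. For 100 percent of all
polynomials `D(t)` of degree at most `n` with integral coefficients, ordered by the size of the
coordinates of the coefficients for a given integral basis `B` of `k`, the following holds for the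
Jacobian `J` of the twist `y ^ ℓ = D(t) F(x)`: every class of `ℓ`-power order in
`H ^ 1 (k(t), J)` which is zero over the completions at all closed points of the affine line is
zero, in particular the `ℓ`-adic Tate module of the Tate-Shafarevich group of `J` is zero. -/
theorem result (k : Type) [Field k] [NumberField k] (I : Type) [Fintype I]
    (B : Module.Basis I ℤ (𝓞 k)) (ℓ : ℕ) (hℓ : ℓ.Prime) (ζ : k) (hζ : IsPrimitiveRoot ζ ℓ)
    (F : (RatFunc k)[X]) (hs : F.Splits) (hsep : F.Separable) (hdeg : ¬ ℓ ∣ F.natDegree)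
    (n : ℕ) (hn : 2 ≤ n) (hn2 : n = 2 → ℓ ≠ 2) (η : ℝ) (hη : 0 < η) :
    ∃ H₀ : ℕ, ∀ H : ℕ, H₀ ≤ H →
      ({c : Fin (n + 1) → 𝓞 k | (∀ i j, |B.repr (c i) j| ≤ (H : ℤ)) ∧
        ¬ (Y713.Jac.ShaPrimaryTrivial ℓ
            (C (algebraMap k[X] (RatFunc k) (twistPoly c)) * F) k[X] ∧
          Y713.Jac.ShaTateTrivial ℓ
            (C (algebraMap k[X] (RatFunc k) (twistPoly c)) * F) k[X])}.ncard : ℝ) ≤
        η * ((2 * (H : ℝ) + 1) ^ (n + 1)) ^ Fintype.card I := by
  obtain ⟨H0, h0⟩ := R431.SG.twists_mainL B hℓ hζ hs hsep hdeg hn hn2 hη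
  refine ⟨H0, fun H hH => ?_⟩
  rw [← pow_mul]
  refine le_trans (le_of_eq ?_) (h0 H hH)
  congr 2
  ext c
  simp only [Set.mem_setOf_eq]
  refine and_congr_right fun _ => not_congr ?_
  exact ⟨fun h => h.1, fun h => ⟨h, Y713.Jac.ShaPrimaryTrivial.tate h⟩⟩

end Pool.Agent.Results.MP_1bdb59_nt.AlmostAllTwists
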