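import Pool.Agent.R427.TS11

/-!
# Elliptic curves of rank two over function fields

Let `p`, `q`, `r`, `s` be irreducible polynomials over a finite field `k`, pairwise non-associated, and let
`a`, `b`, `c` in `k` satisfy `a b c = 1` and `(1 - a) s = p q + r ^ 2 - b p r - c q r`. For all function
fields `K` over `k` and all non-constant `h` in `K` the elliptic curve
`y ^ 2 + (s - p q - r ^ 2)(h) x y + (s p q r ^ 2)(h) y = x ^ 3` has rank at least two over `K`. We bound
the order of vanishing of the `L`-function from above.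
-/

set_option autoImplicit false
set_option linter.all false
set_option maxHeartbeats 4000000

open Polynomial Pool.Agent.W343.BSD Pool.Agent.W313.Gr

namespace Pool.Agent.Results.MP_1bdb59_nt.FourPrimes

section defs

/-- The coefficient of `x` of the short form of `y ^ 2 + e x y + f y = x ^ 3`. -/
def coeffA {R : Type} [CommRing R] (e f : R) : R := -27 * (e ^ 4 - 24 * e * f)

/-- The constant coefficient of the short form of `y ^ 2 + e x y + f y = x ^ 3`. -/
def coeffB {R : Type} [CommRing R] (e f : R) : R := 54 * (e ^ 6 - 36 * e ^ 3 * f + 216 * f ^ 2)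

variable {k K : Type} [Field k] [Field K] [Algebra k K]

/-- The polynomials `p`, `q`, `r`, `s` are irreducible and pairwise non-associated. -/
def Distinct (p q r s : k[X]) : Prop :=
  (Irreducible p ∧ Irreducible q ∧ Irreducible r ∧ Irreducible s) ∧
    (¬ Associated p q ∧ ¬ Associated p r ∧ ¬ Associated q r) ∧
    ¬ Associated s p ∧ ¬ Associated s q ∧ ¬ Associated s r

/-- The polynomials `p`, `q`, `r`, `s` are irreducible and pairwise non-associated, `a b c = 1` and
`(1 - a) s = p q + r ^ 2 - b p r - c q r`. -/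
def Related (p q r s : k[X]) (a b c : k) : Prop :=
  Distinct p q r s ∧ a * b * c = 1 ∧
    C (1 - a) * s = p * q + r ^ 2 - C b * (p * r) - C c * (q * r)

/-- The polynomial `e = s - p q - r ^ 2`. -/
noncomputable def pe (p q r s : k[X]) : k[X] := s - p * q - r ^ 2

/-- The polynomial `f = s p q r ^ 2`. -/
noncomputable def pf (p q r s : k[X]) : k[X] := s * (p * q) * r ^ 2

/-- The polynomial `g = e ^ 3 - 27 f`. -/
noncomputable def pg (p q r s : k[X]) : k[X] := pe p q r s ^ 3 - 27 * pf p q r s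

/-- If three divides `|k| - 1` then `g` is not a cube. -/
def NotCube (p q r s : k[X]) : Prop := 3 ∣ Nat.card k - 1 → ∀ z : k[X], z ^ 3 ≠ pg p q r s

/-- The conditions `Related` and `NotCube`, `e` is prime to `f` and of degree at most a third of the
degree of `f`, which is divisible by three. -/
def Admissible (p q r s : k[X]) (a b c : k) : Prop :=
  Related p q r s a b c ∧ NotCube p q r s ∧ IsCoprime (pe p q r s) (pf p q r s) ∧
    3 ∣ (pf p q r s).natDegree ∧ 3 * (pe p q r s).natDegree ≤ (pf p q r s).natDegree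

/-- The condition `Related`, the degrees of `p`, `q`, `r`, `s` are prime to three, the degree of `f` is
divisible by three and at least three times the degree of `e`, and all irreducible factors of `g` are of
odd degree. -/
def IsQuadruple (p q r s : k[X]) (a b c : k) : Prop :=
  Related p q r s a b c ∧
    (¬ 3 ∣ p.natDegree ∧ ¬ 3 ∣ q.natDegree ∧ ¬ 3 ∣ r.natDegree ∧ ¬ 3 ∣ s.natDegree) ∧
    3 ∣ (pf p q r s).natDegree ∧ 3 * (pe p q r s).natDegree ≤ (pf p q r s).natDegree ∧
    ∀ π : k[X], Irreducible π → π ∣ pg p q r s → Odd π.natDegree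

open Classical in
/-- The sum of `3 ^ v₃(deg v)` over the zeros `v` of `g` (without multiplicities). -/
noncomputable def zeroSum (k : Type) {K : Type} [Field k] [Field K] [Algebra k K] (g : K) : ℕ :=
  ∑ᶠ v : FF.Place k K, if 0 < v.ord g then 3 ^ padicValNat 3 (S.deg v) else 0

open Classical in
/-- The sum of `3 ^ v₃(deg v)` over the zeros `v` of `g` (without multiplicities) for which the order
`q_v = |k| ^ deg v` of the residue field is congruent to `1` modulo three. -/
noncomputable def zeroSumOne (k : Type) {K : Type} [Field k] [Field K] [Algebra k K] (g : K) : ℕ :=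
  ∑ᶠ v : FF.Place k K, if 0 < v.ord g then
    (if 3 ∣ Nat.card k ^ S.deg v - 1 then 3 ^ padicValNat 3 (S.deg v) else 0) else 0

open Classical in
/-- The weight: the zeros of `f(h)`, the zeros of `g(h)` with `q_v` congruent to `1` modulo three, and,
if the degree of `g` is smaller than that of `f`, the poles of `h` with `q_v` congruent to `1` modulo
three. -/
noncomputable def weight (p q r s : k[X]) (h : K) : ℕ :=
  zeroSum k (aeval h (pf p q r s)) + zeroSumOne k (aeval h (pg p q r s)) +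
      (if (pg p q r s).natDegree < (pf p q r s).natDegree then zeroSumOne k h⁻¹ else 0)

/-- `4` if `|k|` is congruent to `1` modulo three and `2` otherwise. -/
noncomputable def shift (k : Type) : ℕ := if 3 ∣ Nat.card k - 1 then 4 else 2

/-- `L(T, E)` is `(1 - |k| T) ^ m G(T)`. -/
def LIs (k : Type) {K : Type} [Field k] [Field K] [Algebra k K] (a b : K) (m : ℕ) (G : ℤ[X]) :
    Prop :=
  S.Lfun k a b = (((1 - C (Nat.card k : ℤ) * X) ^ m * G : ℤ[X]) : PowerSeries ℤ)

/-- The rational number `G(1 / |k|)` is not zero and its `3`-adic valuation is zero. -/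
def UnitAt (k : Type) (G : ℤ[X]) : Prop :=
  (G.map (Int.castRingHom ℚ)).eval ((Nat.card k : ℕ) : ℚ)⁻¹ ≠ 0 ∧
    padicValRat 3 ((G.map (Int.castRingHom ℚ)).eval ((Nat.card k : ℕ) : ℚ)⁻¹) = 0

/-- The rank is at least two. If `L(T, E) = (1 - |k| T) ^ m G(T)` with `G` in `ℤ[T]`, then `m ≤ 2`, and if
`m = 2` then `UnitAt` holds for `G`. If `L(T, E)` is a polynomial with order of vanishing `n` at
`1 / |k|` then `n ≤ 2`, and if the rank is at most `n` then `n` and the rank are two. -/
def RankTwo (k : Type) {K : Type} [Field k] [Field K] [Algebra k K] (a b : K) : Prop :=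
  2 ≤ rank a b ∧ (∀ (m : ℕ) (G : ℤ[X]), LIs k a b m G → m ≤ 2 ∧ (m = 2 → UnitAt k G)) ∧
    ∀ n : ℕ, HasOrder k a b n → n ≤ 2 ∧ (rank a b ≤ n → n = 2 ∧ rank a b = 2)

/-- `y ^ 2 = x ^ 3 + a x + b` is an elliptic curve with a non-constant `j`-invariant
`6912 a ^ 3 / (4 a ^ 3 + 27 b ^ 2)`. -/
def NonIsotrivial (k : Type) {K : Type} [Field k] [Field K] [Algebra k K] (a b : K) : Prop :=
  4 * a ^ 3 + 27 * b ^ 2 ≠ 0 ∧
    ∀ c : k, 6912 * a ^ 3 / (4 * a ^ 3 + 27 * b ^ 2) ≠ algebraMap k K c

/-- The coefficients of the curve `E_h`. -/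
noncomputable def hA (p q r s : k[X]) (h : K) : K :=
  coeffA (aeval h (pe p q r s)) (aeval h (pf p q r s))

/-- The coefficients of the curve `E_h`. -/
noncomputable def hB (p q r s : k[X]) (h : K) : K :=
  coeffB (aeval h (pe p q r s)) (aeval h (pf p q r s))

/-- If `P` is the numerator of the zeta function of `K` and `N = rootSum P` the number of its roots `1` and
`1 / |k|` modulo three (zero if three does not divide the class number), then for all `m`, `G` with
`L(T, E_h) = (1 - |k| T) ^ m G(T)`, `G` in `ℤ[T]`, we have `m + shift ≤ N + weight`, and if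
`N + weight ≤ 2 + shift` then `RankTwo` holds. -/
def Upper (p q r s : k[X]) (h : K) : Prop :=
  ∀ P : ℤ[X], S.IsZetaNum k K P → (¬ 3 ∣ S.classNumber k K → rootSum 3 k P = 0) ∧
    (∀ (m : ℕ) (G : ℤ[X]), LIs k (hA p q r s h) (hB p q r s h) m G →
      m + shift k ≤ rootSum 3 k P + weight p q r s h) ∧
    (rootSum 3 k P + weight p q r s h ≤ 2 + shift k →
      RankTwo k (hA p q r s h) (hB p q r s h))

end defs

section proof

open Pool.Agent.R427

theorem shift_eq (k : Type) [Field k] [Finite k] :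
    shift k = 2 + 2 * (if ((Nat.card k : ℕ) : ZMod 3) = 1 then 1 else 0) := by
  have h4 : (((Nat.card k : ℕ) : ZMod 3) = 1) ↔ 3 ∣ Nat.card k - 1 := by
    have hpos : 1 ≤ Nat.card k := Nat.card_pos
    rw [← ZMod.natCast_eq_zero_iff, Nat.cast_sub hpos, Nat.cast_one, sub_eq_zero]
  unfold shift
  simp only [h4]
  split_ifs <;> rfl

theorem numRoots_zero {l : ℕ} [Fact l.Prime] {k K : Type} [Field k] [Finite k] [Field K]
    [Algebra k K] (hK : IsCurveField k K) (hlk : ((l : ℕ) : k) ≠ 0) {P : Polynomial ℤ}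
    (hP : S.IsZetaNum k K P) (hcl : ¬ l ∣ S.classNumber k K) : rootSum l k P = 0 := by
  haveI : FF.IsFF k K := ⟨hK.essFiniteType, hK.trdeg_eq_one⟩
  have hr : constDeg k K = 1 := TH958.T4.constDeg_eq_one hK.algClosed
  have hcl' : ¬ l ∣ classNumber k K := by rwa [← S.classNumber_eq]
  have hconst : ∀ a : K, IsAlgebraic k a → a ∈ (algebraMap k K).range := hK.algClosed
  obtain ⟨Q, hQ, hQ1⟩ := exists_num k K hconst
  have hPQ : P = Q := by
    have h1 := (S.isZetaNum_iff P).1 hP
    unfold IsZetaNumRel at h1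
    unfold IsZetaNum at hQ
    rw [hr, pow_one, pow_one] at h1
    have h2 := h1.trans hQ.symm
    apply Polynomial.coe_injective
    refine mul_right_cancel₀ (fun h0 => ?_) h2
    rw [h0, mul_zero] at h1
    have h3 := congrArg (PowerSeries.constantCoeff (R := ℤ)) h1
    simp at h3
  subst hPQ
  have e1 := AQ.eval_inv_ne (l := l) hlk hconst hQ hcl'
  unfold rootSum
  rw [Polynomial.rootMultiplicity_eq_zero e1, Polynomial.rootMultiplicity_eq_zero, add_zero]
  intro h0
  rw [IsRoot.def, Polynomial.eval_one_map, hQ1, eq_intCast, ZMod.intCast_zmod_eq_zero_iff_dvd] at h0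
  exact hcl' (by exact_mod_cast h0)

theorem quad_of {k : Type} [Field k] {p q r s : k[X]} {a b c : k} (h : Related p q r s a b c) :
    TS.Quad p q r s a b c :=
  ⟨h.1.1.1, h.1.1.2.1, h.1.1.2.2.1, h.1.1.2.2.2, h.1.2.1.1, h.1.2.1.2.1, h.1.2.1.2.2, h.1.2.2.1,
    h.1.2.2.2.1, h.1.2.2.2.2, h.2.1, h.2.2⟩

theorem of_quad {k : Type} [Field k] {p q r s : k[X]} {a b c : k} (h : TS.Quad p q r s a b c) :
    Related p q r s a b c :=
  ⟨⟨⟨h.ip, h.iq, h.ir, h.is⟩, ⟨h.npq, h.npr, h.nqr⟩, h.nsp, h.nsq, h.nsr⟩, h.habc, h.hrel⟩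

theorem quadD_of {k : Type} [Field k] {p q r s : k[X]} {a b c : k} (h : IsQuadruple p q r s a b c) :
    TS.QuadD p q r s a b c :=
  ⟨quad_of h.1, h.2.1.1, h.2.1.2.1, h.2.1.2.2.1, h.2.1.2.2.2, h.2.2.1, h.2.2.2.1, h.2.2.2.2⟩

theorem of_quadD {k : Type} [Field k] {p q r s : k[X]} {a b c : k} (h : TS.QuadD p q r s a b c) :
    IsQuadruple p q r s a b c :=
  ⟨of_quad h.h, ⟨h.dp, h.dq, h.dr, h.ds⟩, h.d3, h.de, h.odd⟩

theorem mod_two {k : Type} [Field k] [Finite k] (h6 : (6 : k) ≠ 0) (hd : ¬ 3 ∣ Nat.card k - 1) :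
    Nat.card k % 3 = 2 := by
  have hpos : 1 < Nat.card k := Finite.one_lt_card
  have h3 : ¬ 3 ∣ Nat.card k := by
    intro h3
    have h3k : (3 : k) ≠ 0 := fun e => h6 (by linear_combination 2 * e)
    apply card_ne_zero_mod (l := 3) (k := k) (by exact_mod_cast h3k)
    exact (ZMod.natCast_eq_zero_iff _ _).2 h3
  omega

theorem rank_alt {k : Type} [Field k] [Finite k] (h6 : (6 : k) ≠ 0) {p q r s : k[X]}
    (h : NotCube p q r s) :
    (∀ z : RatFunc k, z ^ 2 ≠ -3) ∨
      ∀ z : k[X], z ^ 3 ≠ (s - p * q - r ^ 2) ^ 3 - 27 * (s * (p * q) * r ^ 2) := by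
  by_cases hd : 3 ∣ Nat.card k - 1
  · exact Or.inr (h hd)
  · exact Or.inl (TS.neg_three h6 (mod_two h6 hd))

section K

variable {k K : Type} [Field k] [Finite k] [Field K] [Algebra k K] {p q r s : k[X]} {a b c : k}

/-- the properties of the curves -/
theorem lower (h6 : (6 : k) ≠ 0) (hK : IsCurveField k K) (ha : Related p q r s a b c)
    (hn : NotCube p q r s) {h : K} (hh : ∀ c : k, h ≠ algebraMap k K c) :
    NonIsotrivial k (hA p q r s h) (hB p q r s h) ∧ 2 ≤ rank (hA p q r s h) (hB p q r s h) := by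
  haveI : FF.IsFF k K := ⟨hK.essFiniteType, hK.trdeg_eq_one⟩
  have hr : constDeg k K = 1 := TH958.T4.constDeg_eq_one hK.algClosed
  have htr := TH180.R2.transc hr hh
  have h2 : (2 : k) ≠ 0 := fun e => h6 (by linear_combination 3 * e)
  have h3 : (3 : k) ≠ 0 := fun e => h6 (by linear_combination 2 * e)
  have H := quad_of ha
  have hΔ := TS.disc_ne' (K := K) h6 H.f_ne (H.node_ne h3) htr
  refine ⟨⟨hΔ, fun z hz => ?_⟩, H.rank_pull h2 h3 (rank_alt h6 hn) htr⟩
  exact H.noniso_K h2 h3 htr z ((div_eq_iff hΔ).1 hz)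

theorem rankTwo_of (h6 : (6 : k) ≠ 0) (hr : constDeg k K = 1) (hK : IsCurveField k K) {e f : K}
    (hΔ : 4 * TS.sA e f ^ 3 + 27 * TS.sB e f ^ 2 ≠ 0) {P : ℤ[X]} (hP : S.IsZetaNum k K P)
    (hrank : 2 ≤ rank (TS.sA e f) (TS.sB e f))
    (hle : rootSum 3 k P + weightSum 3 k (TS.sA e f) (TS.sB e f) ≤ 2 + shift k) :
    RankTwo k (TS.sA e f) (TS.sB e f) := by
  haveI : FF.IsFF k K := ⟨hK.essFiniteType, hK.trdeg_eq_one⟩
  haveI : Fact (Nat.Prime 3) := ⟨Nat.prime_three⟩
  have h3 : (3 : k) ≠ 0 := fun e => h6 (by linear_combination 2 * e)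
  have h3' : ((3 : ℕ) : k) ≠ 0 := by exact_mod_cast h3
  have hN := TH639.B3.pointsDvd_three h6 (TS.isT3 _ _) hΔ
  have h8 : rootSum 3 k P + weightSum 3 k (TS.sA e f) (TS.sB e f) ≤
      2 + (2 + 2 * (if ((Nat.card k : ℕ) : ZMod 3) = 1 then 1 else 0)) := by
    rw [← shift_eq]
    omega
  have key : ∀ (m : ℕ) (G : ℤ[X]), LIs k (TS.sA e f) (TS.sB e f) m G →
      m ≤ 2 ∧ (m = 2 → UnitAt k G) := fun m G hG =>
    LC.fam (l := 3) h3' hΔ hN ((S.isZetaNum_iff P).1 hP) hr h8 hG
  refine ⟨hrank, key, fun r' hr' => ?_⟩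
  have h9 : ((2 : ℕ) : Cardinal) ≤ rank (TS.sA e f) (TS.sB e f) := by
    exact_mod_cast hrank
  obtain ⟨h10, h11⟩ := TH180.R4.concl4 h9 (fun m hm => by
    obtain ⟨G, hG⟩ := hm
    exact (key m G hG).1) r' hr'
  refine ⟨h10, fun hle => ?_⟩
  obtain ⟨h12, h13⟩ := h11 hle
  exact ⟨h12, by rw [h13]; norm_num⟩

theorem upper (h6 : (6 : k) ≠ 0) (hK : IsCurveField k K) (ha : Admissible p q r s a b c) {h : K}
    (hh : ∀ c : k, h ≠ algebraMap k K c) : Upper p q r s h := by
  have hrank := (lower h6 hK ha.1 ha.2.1 hh).2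
  haveI : FF.IsFF k K := ⟨hK.essFiniteType, hK.trdeg_eq_one⟩
  haveI : Fact (Nat.Prime 3) := ⟨Nat.prime_three⟩
  have hr : constDeg k K = 1 := TH958.T4.constDeg_eq_one hK.algClosed
  have htr := TH180.R2.transc hr hh
  have h3 : (3 : k) ≠ 0 := fun e => h6 (by linear_combination 2 * e)
  have h3' : ((3 : ℕ) : k) ≠ 0 := by exact_mod_cast h3
  obtain ⟨ha, -, hcop, ⟨m0, hm0⟩, hde⟩ := ha
  have H := quad_of ha
  have hm0p : 0 < m0 := by
    have h5 : 0 < (pf p q r s).natDegree := by
      show 0 < (s * (p * q) * r ^ 2).natDegree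
      rw [natDegree_mul (mul_ne_zero H.is.ne_zero (mul_ne_zero H.ip.ne_zero H.iq.ne_zero))
        (pow_ne_zero 2 H.ir.ne_zero), natDegree_mul H.is.ne_zero
        (mul_ne_zero H.ip.ne_zero H.iq.ne_zero)]
      have := H.is.natDegree_pos
      omega
    omega
  have hg0 : TS.gg (pe p q r s) (pf p q r s) ≠ 0 := H.node_ne h3
  have hΔ := TS.disc_ne' (K := K) h6 H.f_ne hg0 htr
  have hN := TH639.B3.pointsDvd_three h6 (TS.isT3 _ _) hΔ
  have hw := TS.sum_gen (K := K) h6 (e := pe p q r s) (f := pf p q r s) (m := m0) (by omega) hm0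
    H.f_ne hg0 hm0p hcop htr
  have hw' : weightSum 3 k (hA p q r s h) (hB p q r s h) ≤ weight p q r s h := hw
  refine fun P hP => ⟨fun hcl => numRoots_zero hK h3' hP hcl, ?_, ?_⟩
  · intro m G hG
    have h5 := (LC.main (l := 3) h3' hΔ hN ((S.isZetaNum_iff P).1 hP) hr hG).1
    rw [← shift_eq] at h5
    have h7 : m + shift k ≤ rootSum 3 k P + weightSum 3 k (hA p q r s h) (hB p q r s h) := h5
    omega
  · intro hle
    refine rankTwo_of h6 hr hK hΔ hP hrank ?_
    have h7 : rootSum 3 k P + weightSum 3 k (hA p q r s h) (hB p q r s h) ≤ 2 + shift k := by omega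
    exact h7

end K

theorem rootSum_one (l : ℕ) [Fact l.Prime] (k : Type) : rootSum l k 1 = 0 := by
  unfold rootSum
  rw [Polynomial.map_one]
  have h : ∀ x : ZMod l, (1 : (ZMod l)[X]).rootMultiplicity x = 0 := by
    intro x
    apply rootMultiplicity_eq_zero
    rw [IsRoot.def, eval_one]
    exact one_ne_zero
  rw [h, h]

theorem X_nonconst {k : Type} [Field k] (c : k) : (RatFunc.X : RatFunc k) ≠ algebraMap k (RatFunc k) c := by
  intro hz
  have h1 : (X : k[X]) = C c := RatFunc.algebraMap_injective k (by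
    rw [RatFunc.algebraMap_X]
    exact hz)
  have h2 := congrArg natDegree h1
  rw [natDegree_X, natDegree_C] at h2
  exact one_ne_zero h2

theorem aeval_X' {k : Type} [Field k] (g : k[X]) :
    aeval (RatFunc.X : RatFunc k) g = algebraMap k[X] (RatFunc k) g := by
  rw [← RatFunc.algebraMap_X, aeval_algebraMap_apply, aeval_X_left_apply]

theorem rat {k : Type} [Field k] [Finite k] {p q r s : k[X]} {a b c : k} (h6 : (6 : k) ≠ 0)
    (hq : Nat.card k % 3 = 2) (h : IsQuadruple p q r s a b c) :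
    RankTwo k (hA p q r s (RatFunc.X : RatFunc k)) (hB p q r s (RatFunc.X : RatFunc k)) := by
  have hT := quadD_of h
  have H := hT.h
  have h3 : (3 : k) ≠ 0 := fun e => h6 (by linear_combination 2 * e)
  have hK : IsCurveField k (RatFunc k) := Pool.Agent.TH958.T4.isCurveField_rat
  haveI : FF.IsFF k (RatFunc k) := ⟨hK.essFiniteType, hK.trdeg_eq_one⟩
  haveI : Fact (Nat.Prime 3) := ⟨Nat.prime_three⟩
  have hr : constDeg k (RatFunc k) = 1 := TH958.T4.constDeg_eq_one hK.algClosed
  have hnd : ¬ 3 ∣ Nat.card k - 1 := by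
    have hpos : 1 < Nat.card k := Finite.one_lt_card
    omega
  have hlow := (lower h6 hK h.1 (fun hd => absurd hd hnd) X_nonconst).2
  have hΔ := TS.disc_ne h6 H.f_ne (H.node_ne h3)
  obtain ⟨m, hm⟩ := hT.d3
  have hde := hT.de
  have hw := (TS.sum_rat h6 hq (m := m) (by omega) hm H.f_ne (H.node_ne h3) hT.odd).trans hT.sum
  unfold hA hB at hlow ⊢
  rw [aeval_X', aeval_X'] at hlow ⊢
  refine rankTwo_of h6 hr hK hΔ Pool.Agent.W309.RF.isZetaNum_rat hlow ?_
  rw [rootSum_one, zero_add]
  refine hw.trans ?_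
  unfold shift
  rw [if_neg hnd]

end proof

/-- Let `k` be a finite field of characteristic at least five. For polynomials `p`, `q`, `r`, `s` over
`k`, a function field `K` over `k` and `h` in `K` let `E_h` be the curve `y ^ 2 = x ^ 3 + A x + B`, the
short form of `y ^ 2 + e(h) x y + f(h) y = x ^ 3` with `e = s - p q - r ^ 2` and `f = s p q r ^ 2`. Let
`g = e ^ 3 - 27 f`.

(1) If `Related` and `NotCube` hold, `K` is the function field of a curve over `k` and `h` in `K` is not
constant, then the `j`-invariant of `E_h` is not constant and the rank of `E_h` over `K` is at least two.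

(2) If moreover `Admissible` holds then the `L`-function of `E_h` vanishes at `s = 1` to order at most
`N + W - shift`, where `N` is the number of the roots `1` and `1 / |k|` modulo three of the numerator of
the zeta function of `K` (zero if three does not divide the class number), `W` is the weight and `shift`
is `4` if three divides `|k| - 1` and `2` otherwise. If `N + W - shift` is at most two then `RankTwo`
holds: the order is at most two, both the rank and the order are two if the rank is at most the order,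
and the leading coefficient of the `L`-function is a `3`-adic unit.

(3) If `|k|` is congruent to `2` modulo three and `IsQuadruple` holds, then `RankTwo` holds for `K = k(t)`
and `h = t`.

(4) If `IsQuadruple` holds and `l` is a prime dividing `|k| - 1` and larger than twice the degree of `f`,
then for some `t₀`, `z` in `k`, `z ≠ 0`, `IsQuadruple` holds for the polynomials `p(t₀ + z t ^ (l ^ j))`,
`q(t₀ + z t ^ (l ^ j))`, `r(t₀ + z t ^ (l ^ j))`, `s(t₀ + z t ^ (l ^ j))`, for all `j`.

(5) If `7` and `19` are not zero in `k`, `-15` is a square in `k` and `129` is not a square in `k`, then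
`IsQuadruple` holds for `p = 1 + 64 t`, `q = 1 + t`, `r = 1 - 8 t`, `s = -64 t ^ 2 + 70 t - 1`,
`a = b = -1 / 2` and `c = 4`. -/
theorem result (k : Type) [Field k] [Finite k] (h6 : (6 : k) ≠ 0) :
    (∀ (p q r s : k[X]) (a b c : k), Related p q r s a b c → NotCube p q r s →
      ∀ (K : Type) [Field K] [Algebra k K], IsCurveField k K →
      ∀ h : K, (∀ z : k, h ≠ algebraMap k K z) →
        (NonIsotrivial k (hA p q r s h) (hB p q r s h) ∧
          2 ≤ rank (hA p q r s h) (hB p q r s h)) ∧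
        (Admissible p q r s a b c → Upper p q r s h)) ∧
    (∀ (p q r s : k[X]) (a b c : k), IsQuadruple p q r s a b c →
      (Nat.card k % 3 = 2 →
        RankTwo k (hA p q r s (RatFunc.X : RatFunc k)) (hB p q r s (RatFunc.X : RatFunc k))) ∧
      ∀ l : ℕ, l.Prime → 2 * (pf p q r s).natDegree < l → l ∣ Nat.card k - 1 →
        ∃ t z : k, z ≠ 0 ∧ ∀ j : ℕ, IsQuadruple (p.comp (C t + C z * X ^ l ^ j))
          (q.comp (C t + C z * X ^ l ^ j)) (r.comp (C t + C z * X ^ l ^ j))
          (s.comp (C t + C z * X ^ l ^ j)) a b c) ∧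
    ((7 : k) ≠ 0 → (19 : k) ≠ 0 → (∃ w : k, w ^ 2 = -15) → (∀ z : k, z ^ 2 ≠ 129) →
      IsQuadruple (1 + C 64 * X) (1 + C 1 * X) (1 + C (-8) * X)
        (C (-64) * X ^ 2 + C 70 * X + C (-1) : k[X]) (-(2⁻¹)) (-(2⁻¹)) 4) := by
  have h2 : (2 : k) ≠ 0 := fun e => h6 (by linear_combination 3 * e)
  have h3 : (3 : k) ≠ 0 := fun e => h6 (by linear_combination 2 * e)
  refine ⟨fun p q r s a b c hR hn K _ _ hK h hh => ⟨lower h6 hK hR hn hh, fun ha =>
    upper h6 hK ha hh⟩, fun p q r s a b c hQ => ⟨fun hq => rat h6 hq hQ, fun l hl hl3 hd => ?_⟩,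
    fun h7 h19 hw h129 => ?_⟩
  · obtain ⟨t, z, hz, hj⟩ := (quadD_of hQ).tower h3 hl hl3 hd
    exact ⟨t, z, hz, fun j => of_quadD (hj j)⟩
  · obtain ⟨w, hw⟩ := hw
    exact of_quadD (Pool.Agent.R427.TS.QuadD.explicit h2 h3 h7 h19 hw h129)

end Pool.Agent.Results.MP_1bdb59_nt.FourPrimes
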